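import Pool.Agent.H66.IQ.TD
import Pool.Agent.H43.IP.LGT

/-!
# The step at a choice if all masses are small, general leaves (row LGT)
-/

set_option autoImplicit false

namespace Pool.Agent.H95.IQ

open Finset Pool.Agent.H66.IQ
open Pool.Agent.H66.IP (smx gw fp dd c4 tht Sq ow T_SMA T_SQA T_SQB T_EXQ T_EXB T_LGR)
open Pool.Agent.H43.IP (fp_fp fp_comm fp_ne_iff fp_fp_ne_iff tht_pos tht_mul s4 s4_le s4_single
  exp_le_two exp_le_inv child_num cn fpx_cn fpz_cn c4_eq dd_eq)

section

variable {V : Type} [Fintype V] [DecidableEq V]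

theorem lip1 (hLIP : T_LIP) {β : ℝ} (hβ : 0 < β) (t : Tr V) (x : V) (y : V → Bool) :
    t.sv β y - t.sv β (fp x y) ≤ t.ms β x y := by
  have h := hLIP V β t y (fp x y) hβ
  have hf : univ.filter (fun w => y w ≠ fp x y w) = {x} := by
    ext w
    rw [mem_filter, mem_singleton]
    simp only [mem_univ, true_and]
    exact fp_ne_iff x y w
  rwa [hf, sum_singleton] at h

theorem lip1' (hLIP : T_LIP) {β : ℝ} (hβ : 0 < β) (t : Tr V) (x : V) (y : V → Bool) :
    t.sv β (fp x y) - t.sv β y ≤ t.ms β x (fp x y) := by
  have h := lip1 hLIP hβ t x (fp x y)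
  rwa [fp_fp] at h

theorem lip2 (hLIP : T_LIP) {β : ℝ} (hβ : 0 < β) (t : Tr V) {x z : V} (hxz : x ≠ z)
    (y : V → Bool) : t.sv β y - t.sv β (fp x (fp z y)) ≤ t.ms β x y + t.ms β z y := by
  have h := hLIP V β t y (fp x (fp z y)) hβ
  have hf : univ.filter (fun w => y w ≠ fp x (fp z y) w) = {x, z} := by
    ext w
    rw [mem_filter, mem_insert, mem_singleton]
    simp only [mem_univ, true_and]
    exact fp_fp_ne_iff hxz y w
  rwa [hf, sum_pair hxz] at h

omit [Fintype V] in
theorem own_eq (β : ℝ) (t : Tr V) (x z : V) (y : V → Bool) : t.own β x z y =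
    t.ms β x y * (t.ms β z y + t.ms β z (fp x y)) + t.ms β z y * (t.ms β x y + t.ms β x (fp z y)) :=
  rfl

end

section

variable {V : Type} [Fintype V] [DecidableEq V]

theorem sq_cn (hEVS : T_EVS) (hMSS : T_MSS) (hLIP : T_LIP) {β : ℝ} (hβ : 0 < β) (m : Tr V)
    {x z : V} (hxz : x ≠ z) (y : V → Bool) :
    Sq (fun i j => m.sv β (cn x z y i j)) (fun i j => m.ms β x (cn x z y i j))
      (fun i j => m.ms β z (cn x z y i j)) where
  g0 := fun i j => (hEVS V β m _ hβ).1
  g1 := fun i j => (hEVS V β m _ hβ).2.1.trans (hEVS V β m (cn x z y i j) hβ).2.2.1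
  a0 := fun i j => ((hMSS V β m _ hβ).1 x).1
  a1 := fun i j => ((hMSS V β m _ hβ).1 x).2
  b0 := fun i j => ((hMSS V β m _ hβ).1 z).1
  b1 := fun i j => ((hMSS V β m _ hβ).1 z).2
  da := fun i j => by
    have := lip1 hLIP hβ m x (cn x z y i j)
    rwa [fpx_cn] at this
  db := fun i j => by
    have := lip1 hLIP hβ m z (cn x z y i j)
    rwa [fpz_cn hxz] at this
  dab := fun i j => by
    have := lip2 hLIP hβ m hxz (cn x z y i j)
    rwa [fpz_cn hxz, fpx_cn] at this

theorem ow_cn (β : ℝ) (m : Tr V) {x z : V} (hxz : x ≠ z) (y : V → Bool) (i j : Bool) :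
    ow (fun i j => m.ms β x (cn x z y i j)) (fun i j => m.ms β z (cn x z y i j)) i j =
      m.own β x z (cn x z y i j) := by
  rw [own_eq, fpx_cn, fpz_cn hxz]
  rfl

end

/-- LGT. -/
theorem pf_LGT (hSMA : T_SMA) (hEVS : T_EVS) (hMSS : T_MSS) (hLIP : T_LIP) (hRSM : T_RSM)
    (hTRN : T_TRN) (hSQA : T_SQA) (hSQB : T_SQB) (hEXQ : T_EXQ) (hEXB : T_EXB)
    (hLGR : T_LGR) : T_LGT := by
  intro V _ _ β k l r K y x z hβ hk hcc hxz hK hlight hl hr
  have hβ0 : 0 < β := by linarith
  have hk' : (1 : ℝ) ≤ k := by exact_mod_cast hk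
  have hθ := tht_pos hβ hk
  have hθk := tht_mul hβ hk
  set θ := tht β k with hθdef
  set u := Tr.ch l r with hu
  have hbt : 0 < β * θ := mul_pos hβ0 hθ
  have hbt1 : β * θ ≤ 1 / 40 := by
    have : β * θ * 1 ≤ β * θ * k := mul_le_mul_of_nonneg_left hk' hbt.le
    linarith
  have hlight' : ∀ i j, u.ms β x (cn x z y i j) < θ ∧ u.ms β z (cn x z y i j) < θ := by
    intro i j
    apply hlight
    cases i <;> cases j <;> simp [cn]
  have hm := fun (m : Tr V) w y' => ((hMSS V β m y' hβ0).1 w).1
  have hOw := fun (m : Tr V) y' => ((hRSM V β m y' hβ0).1 x z).1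
  have hOR := fun (m : Tr V) y' => ((hRSM V β m y' hβ0).1 x z).2
  have hR := fun (m : Tr V) y' => (hOw m y').trans (hOR m y')
  -- the differences of the value at the node
  have hW : ∀ i j, |u.sv β (cn x z y i j) - u.sv β (cn x z y (!i) j)| ≤ θ ∧
      |u.sv β (cn x z y i j) - u.sv β (cn x z y i (!j))| ≤ θ := by
    intro i j
    have q1 := lip1 hLIP hβ0 u x (cn x z y i j)
    have q2 := lip1' hLIP hβ0 u x (cn x z y i j)
    have q3 := lip1 hLIP hβ0 u z (cn x z y i j)
    have q4 := lip1' hLIP hβ0 u z (cn x z y i j)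
    rw [fpx_cn] at q1 q2
    rw [fpz_cn hxz] at q3 q4
    have a1 := (hlight' i j).1
    have a2 := (hlight' (!i) j).1
    have a3 := (hlight' i j).2
    have a4 := (hlight' i (!j)).2
    constructor
    · rw [abs_le]; constructor <;> linarith
    · rw [abs_le]; constructor <;> linarith
  have sv_eq : ∀ y', u.sv β y' = smx β (l.sv β y') (r.sv β y') := fun _ => rfl
  have gl : ∀ y', gw β (l.sv β y') (r.sv β y') = Real.exp (β * (l.sv β y' - u.sv β y')) / 2 :=
    fun y' => (hSMA β hβ0 _ _).2.2.1
  have gr : ∀ y', gw β (r.sv β y') (l.sv β y') = Real.exp (β * (r.sv β y' - u.sv β y')) / 2 :=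
    fun y' => by
      rw [sv_eq, (hSMA β hβ0 (l.sv β y') (r.sv β y')).1.2.2.2]
      exact (hSMA β hβ0 _ _).2.2.1
  have hZ : ∀ y', Real.exp (β * u.sv β y') =
      (Real.exp (β * l.sv β y') + Real.exp (β * r.sv β y')) / 2 := fun y' =>
    (hSMA β hβ0 _ _).2.2.2.1
  have hrr : ∀ y', u.rr β x z y' = u.own β x z y' +
      (gw β (l.sv β y') (r.sv β y') * l.rr β x z y' +
        gw β (r.sv β y') (l.sv β y') * r.rr β x z y') := fun _ => rfl
  -- the two children
  have cm : ∀ m : Tr V, |dd x z (m.sv β) y| ≤ K * c4 x z (m.rr β x z) y →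
      Real.exp (2 * (β * θ)) / β * (Real.exp (β * u.sv β (cn x z y false false)) *
        (|Real.exp (β * m.sv β (cn x z y true true)) - Real.exp (β * m.sv β (cn x z y true false)) -
        Real.exp (β * m.sv β (cn x z y false true)) +
          Real.exp (β * m.sv β (cn x z y false false))| / 2) /
        (Real.exp (β * u.sv β (cn x z y true false)) *
          Real.exp (β * u.sv β (cn x z y false true)))) ≤
      s4 (fun i j => Real.exp (β * (m.sv β (cn x z y i j) - u.sv β (cn x z y i j))) / 2 *
        ((Real.exp (1 / k) * K + 104 * β * k) * m.rr β x z (cn x z y i j))) := by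
    intro m hmm
    refine child_num hSQA hSQB hEXQ hEXB hβ hk hθ hθk (fun i j => m.sv β (cn x z y i j))
      (fun i j => m.ms β x (cn x z y i j)) (fun i j => m.ms β z (cn x z y i j))
      (fun i j => u.sv β (cn x z y i j)) (fun i j => m.rr β x z (cn x z y i j))
      (sq_cn hEVS hMSS hLIP hβ0 m hxz y) K hK hW (fun i j => ?_) (fun i j => ?_) ?_
    · rw [ow_cn β m hxz]; exact hOw m _
    · rw [ow_cn β m hxz]; exact hOR m _
    · rw [c4_eq, dd_eq] at hmm
      exact hmm
  have hcl := cm l hl
  have hcr := cm r hr
  -- the passage from the partition functions to the value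
  have hmain := hLGR (fun i j => u.sv β (cn x z y i j)) β θ hβ0 hθ hW
    (fun i j => Real.exp (β * u.sv β (cn x z y i j))) (fun _ _ => rfl)
  -- the last term
  have hlast : |u.sv β (cn x z y true false) - u.sv β (cn x z y false false)| *
      |u.sv β (cn x z y false true) - u.sv β (cn x z y false false)| ≤
      6 * s4 (fun i j => u.rr β x z (cn x z y i j)) := by
    have q1 : |u.sv β (cn x z y true false) - u.sv β (cn x z y false false)| ≤
        u.ms β x (cn x z y true false) + u.ms β x (cn x z y false false) := by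
      have q1 := lip1 hLIP hβ0 u x (cn x z y true false)
      have q2 := lip1 hLIP hβ0 u x (cn x z y false false)
      rw [fpx_cn] at q1 q2
      simp only [Bool.not_true, Bool.not_false] at q1 q2
      have := hm u x (cn x z y true false)
      have := hm u x (cn x z y false false)
      rw [abs_le]; constructor <;> linarith
    have q2 : |u.sv β (cn x z y false true) - u.sv β (cn x z y false false)| ≤
        u.ms β z (cn x z y false true) + u.ms β z (cn x z y false false) := by
      have q1 := lip1 hLIP hβ0 u z (cn x z y false true)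
      have q2 := lip1 hLIP hβ0 u z (cn x z y false false)
      rw [fpz_cn hxz] at q1 q2
      simp only [Bool.not_true, Bool.not_false] at q1 q2
      have := hm u z (cn x z y false true)
      have := hm u z (cn x z y false false)
      rw [abs_le]; constructor <;> linarith
    have q3 := hTRN V β k u (cn x z y false true) x z hβ hk hcc hxz
    rw [fpx_cn, Bool.not_false, ← hθdef] at q3
    have o1 := hOR u (cn x z y false false)
    have o2 := hOR u (cn x z y true false)
    have o3 := hOR u (cn x z y false true)
    have o4 := hOR u (cn x z y true true)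
    rw [own_eq, fpx_cn, fpz_cn hxz] at o1 o2 o3 o4
    simp only [Bool.not_true, Bool.not_false] at o1 o2 o3 o4
    have r1 := hR u (cn x z y false false)
    have r2 := hR u (cn x z y true false)
    have r3 := hR u (cn x z y false true)
    have r4 := hR u (cn x z y true true)
    have x1 := hm u x (cn x z y false false)
    have x2 := hm u x (cn x z y true false)
    have x3 := hm u x (cn x z y false true)
    have x4 := hm u x (cn x z y true true)
    have z1 := hm u z (cn x z y false false)
    have z2 := hm u z (cn x z y true false)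
    have z3 := hm u z (cn x z y false true)
    have z4 := hm u z (cn x z y true true)
    have t2 := (hlight' true false).1
    unfold s4
    simp only
    generalize u.rr β x z (cn x z y false false) = R1 at *
    generalize u.rr β x z (cn x z y true false) = R2 at *
    generalize u.rr β x z (cn x z y false true) = R3 at *
    generalize u.rr β x z (cn x z y true true) = R4 at *
    generalize u.ms β x (cn x z y false false) = X1 at *
    generalize u.ms β x (cn x z y true false) = X2 at *
    generalize u.ms β x (cn x z y false true) = X3 at *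
    generalize u.ms β x (cn x z y true true) = X4 at *
    generalize u.ms β z (cn x z y false false) = Z1 at *
    generalize u.ms β z (cn x z y true false) = Z2 at *
    generalize u.ms β z (cn x z y false true) = Z3 at *
    generalize u.ms β z (cn x z y true true) = Z4 at *
    have m11 := mul_nonneg x1 z1
    have m12 := mul_nonneg x1 z2
    have m13 := mul_nonneg x1 z3
    have m21 := mul_nonneg x2 z1
    have m22 := mul_nonneg x2 z2
    have m24 := mul_nonneg x2 z4
    have m31 := mul_nonneg x3 z1
    have m33 := mul_nonneg x3 z3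
    have m34 := mul_nonneg x3 z4
    have m42 := mul_nonneg x4 z2
    have m43 := mul_nonneg x4 z3
    have m44 := mul_nonneg x4 z4
    have e4 : X2 * Z3 ≤ 3 * (X2 * Z4) + 3 * (R3 + R4) := by
      calc X2 * Z3 ≤ X2 * (3 * (Z4 + (R3 + R4) / θ)) := mul_le_mul_of_nonneg_left q3 x2
        _ = 3 * (X2 * Z4) + 3 * (X2 * ((R3 + R4) / θ)) := by ring
        _ ≤ 3 * (X2 * Z4) + 3 * (θ * ((R3 + R4) / θ)) := by
            have : X2 * ((R3 + R4) / θ) ≤ θ * ((R3 + R4) / θ) :=
              mul_le_mul_of_nonneg_right t2.le (div_nonneg (by linarith) hθ.le)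
            linarith
        _ = 3 * (X2 * Z4) + 3 * (R3 + R4) := by
            rw [mul_div_cancel₀ _ hθ.ne']
    refine (mul_le_mul q1 q2 (abs_nonneg _) (by linarith)).trans ?_
    have hex : (X2 + X1) * (Z3 + Z1) = X2 * Z3 + X2 * Z1 + X1 * Z3 + X1 * Z1 := by ring
    rw [hex]
    have f1 : X1 * Z1 ≤ R1 := by nlinarith
    have f2 : X2 * Z1 ≤ R2 := by nlinarith
    have f3 : X1 * Z3 ≤ R3 := by nlinarith
    have f4 : X2 * Z4 ≤ R4 := by nlinarith
    linarith
  -- the sum over the children
  have hsum : s4 (fun i j => Real.exp (β * (l.sv β (cn x z y i j) - u.sv β (cn x z y i j))) / 2 *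
        ((Real.exp (1 / k) * K + 104 * β * k) * l.rr β x z (cn x z y i j))) +
      s4 (fun i j => Real.exp (β * (r.sv β (cn x z y i j) - u.sv β (cn x z y i j))) / 2 *
        ((Real.exp (1 / k) * K + 104 * β * k) * r.rr β x z (cn x z y i j))) ≤
      (Real.exp (1 / k) * K + 104 * β * k) * s4 (fun i j => u.rr β x z (cn x z y i j)) := by
    have hC : 0 ≤ Real.exp (1 / k) * K + 104 * β * k := by positivity
    have hpt : ∀ y', Real.exp (β * (l.sv β y' - u.sv β y')) / 2 * l.rr β x z y' +
        Real.exp (β * (r.sv β y' - u.sv β y')) / 2 * r.rr β x z y' ≤ u.rr β x z y' := by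
      intro y'
      rw [hrr y', ← gl y', ← gr y']
      have := hOw u y'
      linarith
    have hpp := s4_le (fun i j => hpt (cn x z y i j))
    have := mul_le_mul_of_nonneg_left hpp hC
    refine le_trans (le_of_eq ?_) this
    unfold s4
    ring
  -- the first term
  have hfirst : Real.exp (2 * (β * θ)) / β * (Real.exp (β * u.sv β (cn x z y false false)) *
      |Real.exp (β * u.sv β (cn x z y true true)) - Real.exp (β * u.sv β (cn x z y true false)) -
        Real.exp (β * u.sv β (cn x z y false true)) +
          Real.exp (β * u.sv β (cn x z y false false))| /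
        (Real.exp (β * u.sv β (cn x z y true false)) *
          Real.exp (β * u.sv β (cn x z y false true)))) ≤
      (Real.exp (1 / k) * K + 104 * β * k) * s4 (fun i j => u.rr β x z (cn x z y i j)) := by
    refine le_trans ?_ ((add_le_add hcl hcr).trans hsum)
    rw [← mul_add, ← add_div, ← mul_add, ← add_div]
    apply mul_le_mul_of_nonneg_left _ (by positivity)
    apply div_le_div_of_nonneg_right _ (by positivity)
    apply mul_le_mul_of_nonneg_left _ (by positivity)
    rw [hZ (cn x z y true true), hZ (cn x z y true false), hZ (cn x z y false true),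
      hZ (cn x z y false false), le_div_iff₀ (by norm_num : (0 : ℝ) < 2)]
    refine le_trans (le_of_eq ?_) (abs_add_le _ _)
    rw [← abs_two (α := ℝ), ← abs_mul, abs_two]
    congr 1
    ring
  have hexp : Real.exp (4 * (β * θ)) ≤ 7 / 6 := by
    refine (exp_le_inv (by linarith)).trans ?_
    rw [div_le_iff₀ (by linarith)]
    linarith
  have hs0 : 0 ≤ s4 (fun i j => u.rr β x z (cn x z y i j)) := by
    unfold s4
    have r1 := hR u (cn x z y false false)
    have r2 := hR u (cn x z y true false)
    have r3 := hR u (cn x z y false true)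
    have r4 := hR u (cn x z y true true)
    simp only
    linarith
  have hlast' : Real.exp (4 * (β * θ)) * β *
      (|u.sv β (cn x z y true false) - u.sv β (cn x z y false false)| *
      |u.sv β (cn x z y false true) - u.sv β (cn x z y false false)|) ≤
      7 * β * k * s4 (fun i j => u.rr β x z (cn x z y i j)) := by
    calc _ ≤ (7 / 6 * β) * (6 * s4 (fun i j => u.rr β x z (cn x z y i j))) := by
          apply mul_le_mul _ hlast (by positivity) (by positivity)
          exact mul_le_mul_of_nonneg_right hexp hβ0.le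
      _ = 7 * β * 1 * s4 (fun i j => u.rr β x z (cn x z y i j)) := by ring
      _ ≤ 7 * β * k * s4 (fun i j => u.rr β x z (cn x z y i j)) := by
          apply mul_le_mul_of_nonneg_right _ hs0
          exact mul_le_mul_of_nonneg_left hk' (by positivity)
  rw [dd_eq, c4_eq]
  refine hmain.trans ((add_le_add hfirst hlast').trans ?_)
  have : 0 ≤ β * k * s4 (fun i j => u.rr β x z (cn x z y i j)) := by positivity
  nlinarith

end Pool.Agent.H95.IQ
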