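import Pool.Agent.H66.IQ.TD

/-!
# A game with some of the variables fixed is a game (row RTR)
-/

set_option autoImplicit false

namespace Pool.Agent.H95.IQ

open Finset Pool.Agent.H66.IQ
open Pool.Agent.H66.IP (smx gw)
open Pool.Agent.H6.NB (rst Cl)

open Classical in
/-- the restricted leaf -/
noncomputable def rl {V : Type} (a : Lf V) (ρ : V → Option Bool) : Lf V where
  f := fun y => a.f fun v => (ρ v).getD (y v)
  Q := fun y => (a.Q fun v => (ρ v).getD (y v)).filter fun v => ρ v = none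
  path := by
    intro y y' h
    have h1 : ∀ v ∈ a.Q (fun v => (ρ v).getD (y v)), (ρ v).getD (y' v) = (ρ v).getD (y v) := by
      intro v hv
      by_cases hr : ρ v = none
      · rw [hr]
        exact h v (Finset.mem_filter.2 ⟨hv, hr⟩)
      · obtain ⟨b, hb⟩ := Option.ne_none_iff_exists'.1 hr
        rw [hb]
        rfl
    obtain ⟨h2, h3⟩ := a.path (fun v => (ρ v).getD (y v)) (fun v => (ρ v).getD (y' v)) h1
    refine ⟨h2, ?_⟩
    rw [h3]

theorem pf_RTR (hCLR : Pool.Agent.H6.NB.T_CLR) : T_RTR := by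
  classical
  intro V _ t ρ
  induction t with
  | lf a =>
    refine ⟨Tr.lf (rl a ρ), le_refl _, le_refl _, ?_, fun S d h => ?_, fun y => rfl,
      fun β y => rfl⟩
    · change (univ.sup fun y => ((rl a ρ).Q y).card) ≤ univ.sup fun y => (a.Q y).card
      refine Finset.sup_le fun y _ => ?_
      refine le_trans (Finset.card_le_card ?_)
        (Finset.le_sup (f := fun y => (a.Q y).card) (Finset.mem_univ fun v => (ρ v).getD (y v)))
      exact Finset.filter_subset _ _
    · exact hCLR V S d a.f ρ h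
  | av l r ihl ihr =>
    obtain ⟨l', a1, a2, a3, a6, a4, a5⟩ := ihl
    obtain ⟨r', b1, b2, b3, b6, b4, b5⟩ := ihr
    refine ⟨Tr.av l' r', max_le_max a1 b1, Nat.add_le_add_right (max_le_max a2 b2) 1,
      max_le_max a3 b3, fun S d h => ⟨a6 S d h.1, b6 S d h.2⟩, fun y => ?_, fun β y => ?_⟩
    · change (l'.ev y + r'.ev y) / 2 = _
      rw [a4, b4]; rfl
    · change (l'.sv β y + r'.sv β y) / 2 = _
      rw [a5, b5]; rfl
  | ch l r ihl ihr =>
    obtain ⟨l', a1, a2, a3, a6, a4, a5⟩ := ihl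
    obtain ⟨r', b1, b2, b3, b6, b4, b5⟩ := ihr
    refine ⟨Tr.ch l' r', Nat.add_le_add_right (max_le_max a1 b1) 1,
      Nat.add_le_add_right (max_le_max a2 b2) 1, max_le_max a3 b3,
      fun S d h => ⟨a6 S d h.1, b6 S d h.2⟩, fun y => ?_, fun β y => ?_⟩
    · change max (l'.ev y) (r'.ev y) = _
      rw [a4, b4]; rfl
    · change smx β (l'.sv β y) (r'.sv β y) = _
      rw [a5, b5]; rfl

end Pool.Agent.H95.IQ
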